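import Mathlib

set_option autoImplicit false

/-! # Gromov-Hausdorff and Hausdorff distance for subsets of the circle -/

open Set Real

namespace Pool.Agent.R736.CircleGH

/-- The circle of length `2π` with its geodesic (arc length) metric. -/
abbrev Circ := AddCircle (2 * Real.pi)

/-- The Hausdorff distance inside the circle from `X` to the whole circle:
`sup_p inf_{x ∈ X} d (p, x)`. -/
noncomputable def dH (X : Set Circ) : ℝ := ⨆ p : Circ, Metric.infDist p X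

/-- `R` is a correspondence between the subset `X` and the circle. -/
def IsCorrespondence (X : Set Circ) (R : Set (Circ × Circ)) : Prop :=
  (∀ r ∈ R, r.1 ∈ X) ∧ (∀ x ∈ X, ∃ p, (x, p) ∈ R) ∧ ∀ p, ∃ x, (x, p) ∈ R

/-- The distortion of `R` is at most `δ`. -/
def DistortionLE (R : Set (Circ × Circ)) (δ : ℝ) : Prop :=
  ∀ r ∈ R, ∀ s ∈ R, |dist r.1 s.1 - dist r.2 s.2| ≤ δ

/-- The Gromov-Hausdorff distance between the subset `X` (with the restricted metric) and the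
circle: one half of the infimum of the distortions of the correspondences. -/
noncomputable def dGH (X : Set Circ) : ℝ :=
  sInf {δ : ℝ | ∃ R, IsCorrespondence X R ∧ DistortionLE R δ} / 2

/-! ### The metric of the circle -/

lemma two_pi_ne : (2 * π : ℝ) ≠ 0 := by positivity

lemma dist_le_pi (x y : Circ) : dist x y ≤ π := by
  rw [dist_eq_norm]
  have := AddCircle.norm_le_half_period (2 * π) (x := x - y) two_pi_ne
  rwa [abs_of_pos (by positivity), mul_div_cancel_left₀ _ (two_ne_zero)] at this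

lemma dist_coe_of_le {a b : ℝ} (h : |a - b| ≤ π) : dist (a : Circ) (b : Circ) = |a - b| := by
  rw [dist_eq_norm, ← AddCircle.coe_sub]
  rw [AddCircle.norm_coe_eq_abs_iff _ two_pi_ne, abs_of_pos (by positivity : (0:ℝ) < 2 * π)]
  linarith

lemma dist_coe_of_ge {a b : ℝ} (h1 : π ≤ |a - b|) (h2 : |a - b| ≤ 2 * π) :
    dist (a : Circ) (b : Circ) = 2 * π - |a - b| := by
  have hp : (0 : ℝ) < π := Real.pi_pos
  rcases le_or_gt 0 (a - b) with h | h
  · rw [abs_of_nonneg h] at h1 h2 ⊢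
    have e : (a : Circ) = ((a - 2 * π : ℝ) : Circ) := by
      rw [AddCircle.coe_sub, AddCircle.coe_period, sub_zero]
    rw [e, dist_coe_of_le (by rw [abs_of_nonpos (by linarith)]; linarith),
      abs_of_nonpos (by linarith)]
    ring
  · rw [abs_of_neg h] at h1 h2 ⊢
    have e : (a : Circ) = ((a + 2 * π : ℝ) : Circ) := by
      rw [AddCircle.coe_add, AddCircle.coe_period, add_zero]
    rw [e, dist_coe_of_le (by rw [abs_of_nonneg (by linarith)]; linarith),
      abs_of_nonneg (by linarith)]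
    ring

lemma dist_coe_eq {a b : ℝ} (h2 : |a - b| ≤ 2 * π) :
    dist (a : Circ) (b : Circ) = min |a - b| (2 * π - |a - b|) := by
  rcases le_total |a - b| π with h | h
  · rw [dist_coe_of_le h, min_eq_left (by linarith)]
  · rw [dist_coe_of_ge h h2, min_eq_right (by linarith)]

/-! ### Basic facts on the two distances -/

lemma bdd (X : Set Circ) : BddAbove (Set.range fun p : Circ => Metric.infDist p X) := by
  rcases X.eq_empty_or_nonempty with rfl | ⟨x, hx⟩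
  · exact ⟨0, by rintro _ ⟨p, rfl⟩; simp [Metric.infDist_empty]⟩
  · refine ⟨π, ?_⟩
    rintro _ ⟨p, rfl⟩
    exact (Metric.infDist_le_dist_of_mem hx).trans (dist_le_pi p x)

lemma infDist_le_dH (X : Set Circ) (p : Circ) : Metric.infDist p X ≤ dH X :=
  le_ciSup (bdd X) p

lemma full_mem {X : Set Circ} (hX : X.Nonempty) :
    π ∈ {δ : ℝ | ∃ R, IsCorrespondence X R ∧ DistortionLE R δ} := by
  obtain ⟨x, hx⟩ := hX
  refine ⟨{r | r.1 ∈ X}, ⟨fun r hr => hr, fun y hy => ⟨0, hy⟩, fun p => ⟨x, hx⟩⟩, ?_⟩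
  intro r _ s _
  rw [abs_le]
  constructor
  · linarith [dist_le_pi r.2 s.2, dist_nonneg (x := r.1) (y := s.1)]
  · linarith [dist_le_pi r.1 s.1, dist_nonneg (x := r.2) (y := s.2)]

lemma nonneg_of_mem {X : Set Circ} {δ : ℝ} (R : Set (Circ × Circ)) (hR : IsCorrespondence X R)
    (hd : DistortionLE R δ) : 0 ≤ δ := by
  obtain ⟨x, hx⟩ := hR.2.2 0
  exact (abs_nonneg _).trans (hd _ hx _ hx)

lemma bddBelow (X : Set Circ) :
    BddBelow {δ : ℝ | ∃ R, IsCorrespondence X R ∧ DistortionLE R δ} :=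
  ⟨0, fun _ ⟨R, hR, hd⟩ => nonneg_of_mem R hR hd⟩

lemma dGH_le {X : Set Circ} {δ : ℝ} (R : Set (Circ × Circ)) (hR : IsCorrespondence X R)
    (hd : DistortionLE R δ) : dGH X ≤ δ / 2 := by
  unfold dGH
  have := csInf_le (bddBelow X) ⟨R, hR, hd⟩
  linarith

lemma dGH_le_half_pi {X : Set Circ} (hX : X.Nonempty) : dGH X ≤ π / 2 := by
  obtain ⟨R, h1, h2⟩ := full_mem hX
  exact dGH_le R h1 h2

/-- `d_GH ≤ d_H`. -/
lemma dGH_le_dH {X : Set Circ} (hX : X.Nonempty) : dGH X ≤ dH X := by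
  refine le_of_forall_pos_le_add fun κ hκ => ?_
  have h := dGH_le (X := X) (δ := 2 * (dH X + κ)) {r | r.1 ∈ X ∧ dist r.1 r.2 ≤ dH X + κ}
    ⟨fun r hr => hr.1, fun x hx => ⟨x, hx, ?_⟩, fun p => ?_⟩ ?_
  · linarith
  · simp only [dist_self]
    have := infDist_le_dH X x
    have := Metric.infDist_nonneg (x := x) (s := X)
    linarith
  · obtain ⟨x, hx, hxp⟩ := (Metric.infDist_lt_iff hX).1
      (show Metric.infDist p X < dH X + κ by linarith [infDist_le_dH X p])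
    exact ⟨x, hx, by rw [dist_comm]; exact hxp.le⟩
  · rintro r ⟨_, hr⟩ s ⟨_, hs⟩
    have e1 := dist_dist_dist_le r.1 s.1 r.2 s.2
    rw [Real.dist_eq] at e1
    linarith

/-! ### A sign change argument -/

lemma sign_change (m : ℕ) (a : ℕ → ℝ) (c D : ℝ) (hc : 0 < c)
    (hper : ∀ i, a (i + m + m) = a i)
    (h1 : ∀ i, |a (i + 1) - a i| ≤ D)
    (h2 : ∀ i, c ≤ |a i - a (i + m)|)
    (h3 : ∀ i, c ≤ |a (i + 1) - a (i + m)|) : 2 * c ≤ D := by
  by_contra hcon
  push Not at hcon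
  have key : ∀ i, (0 < a i - a (i + m) ↔ 0 < a (i + 1) - a (i + 1 + m)) := by
    intro i
    have e1 := abs_le.1 (h1 i)
    have e2 : |a (i + 1 + m) - a (i + m)| ≤ D := by
      have := h1 (i + m)
      rwa [show i + m + 1 = i + 1 + m by ring] at this
    have e2 := abs_le.1 e2
    have f1 := h2 i
    have f2 := h2 (i + 1)
    have f3 := h3 i
    constructor
    · intro hpos
      by_contra hneg
      push Not at hneg
      rw [abs_of_pos hpos] at f1
      rw [abs_of_nonpos hneg] at f2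
      rcases le_abs.1 f3 with f | f <;> linarith
    · intro hpos
      by_contra hneg
      push Not at hneg
      rw [abs_of_nonpos hneg] at f1
      rw [abs_of_pos hpos] at f2
      rcases le_abs.1 f3 with f | f <;> linarith
  have all : ∀ i, (0 < a 0 - a (0 + m) ↔ 0 < a i - a (i + m)) := by
    intro i
    induction i with
    | zero => exact Iff.rfl
    | succ n ih => exact ih.trans (key n)
  have hm := all m
  have hp := hper 0
  rw [zero_add] at hm hp
  rw [hp] at hm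
  have f := h2 0
  rw [zero_add] at f
  rcases lt_trichotomy 0 (a 0 - a m) with h | h | h
  · have := hm.1 h
    linarith
  · rw [← h] at f
    simp at f
    linarith
  · have : 0 < a m - a 0 := by linarith
    have := hm.2 this
    linarith

lemma exists_rep (x : Circ) : ∃ t : ℝ, t ∈ Ico 0 (2 * π) ∧ (t : Circ) = x := by
  have : Fact (0 < 2 * π) := ⟨by positivity⟩
  have := (AddCircle.equivIco (2 * π) 0 x).2
  refine ⟨(AddCircle.equivIco (2 * π) 0 x : ℝ), by simpa using this, ?_⟩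
  exact (AddCircle.equivIco (2 * π) 0).symm_apply_apply x

/-- Coordinates on `X` adapted to a gap of `X` of length `2 e`. -/
lemma exists_coord {X : Set Circ} {e : ℝ} (he0 : 0 < e) {p0 : Circ}
    (hp0 : ∀ x ∈ X, e ≤ dist p0 x) :
    ∃ T : Circ → ℝ, (∀ x ∈ X, ∀ y ∈ X, dist x y < 2 * e → dist x y = |T x - T y|) ∧
      ∀ x ∈ X, ∀ y ∈ X, dist x y ≤ |T x - T y| := by
  choose T hT1 hT2 using fun x : Circ => exists_rep (x - p0)
  have hTd : ∀ x y : Circ, dist x y = dist (T x : Circ) (T y : Circ) := by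
    intro x y
    rw [hT2, hT2, dist_sub_right]
  have hTX : ∀ x ∈ X, e ≤ T x ∧ T x ≤ 2 * π - e := by
    intro x hx
    have h1 : e ≤ dist p0 x := hp0 x hx
    have h2 : dist p0 x = dist (T x : Circ) ((0 : ℝ) : Circ) := by
      rw [hT2, dist_comm, dist_eq_norm, dist_eq_norm]
      simp
    have h3 := (hT1 x).1
    have h4 := (hT1 x).2
    rw [h2, dist_coe_eq (by rw [sub_zero, abs_of_nonneg h3]; exact h4.le), sub_zero,
      abs_of_nonneg h3] at h1
    exact ⟨h1.trans (min_le_left _ _), by linarith [h1.trans (min_le_right _ _)]⟩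
  have hab : ∀ x ∈ X, ∀ y ∈ X, |T x - T y| ≤ 2 * π - 2 * e := by
    intro x hx y hy
    obtain ⟨a1, a2⟩ := hTX x hx
    obtain ⟨b1, b2⟩ := hTX y hy
    rw [abs_le]; constructor <;> linarith
  refine ⟨T, ?_, ?_⟩
  · intro x hx y hy hxy
    have h := hab x hx y hy
    rw [hTd, dist_coe_eq (by linarith)] at hxy ⊢
    rcases min_lt_iff.1 hxy with h' | h'
    · exact min_eq_left (by linarith)
    · linarith
  · intro x hx y hy
    have h := hab x hx y hy
    rw [hTd, dist_coe_eq (by linarith)]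
    exact min_le_left _ _

/-- The `i`-th point of a subdivision of the circle. -/
noncomputable def pt (η : ℝ) (i : ℕ) : Circ := ((i * η : ℝ) : Circ)

section pt

variable {m : ℕ} {η : ℝ} (hmη : m * η = π) (hη0 : 0 < η) (hη1 : η < π)

include hmη in
lemma pt_period (i : ℕ) : pt η (i + m + m) = pt η i := by
  unfold pt
  have : ((i + m + m : ℕ) : ℝ) * η = i * η + 2 * π := by
    push_cast
    linarith
  rw [this, AddCircle.coe_add, AddCircle.coe_period, add_zero]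

include hη0 hη1 in
lemma pt_d1 (i : ℕ) : dist (pt η (i + 1)) (pt η i) = η := by
  unfold pt
  have : ((i + 1 : ℕ) : ℝ) * η - i * η = η := by push_cast; ring
  rw [dist_coe_of_le (by rw [this, abs_of_pos hη0]; exact hη1.le), this, abs_of_pos hη0]

include hmη in
lemma pt_d2 (i : ℕ) : dist (pt η i) (pt η (i + m)) = π := by
  unfold pt
  have hπ : (0 : ℝ) < π := Real.pi_pos
  have : (i : ℝ) * η - ((i + m : ℕ) : ℝ) * η = -π := by push_cast; linarith
  rw [dist_coe_of_le (by rw [this, abs_neg, abs_of_pos hπ]), this, abs_neg, abs_of_pos hπ]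

include hmη hη0 hη1 in
lemma pt_d3 (i : ℕ) : dist (pt η (i + 1)) (pt η (i + m)) = π - η := by
  unfold pt
  have : ((i + 1 : ℕ) : ℝ) * η - ((i + m : ℕ) : ℝ) * η = -(π - η) := by push_cast; linarith
  rw [dist_coe_of_le (by rw [this, abs_neg, abs_of_pos (by linarith)]; linarith), this, abs_neg,
    abs_of_pos (by linarith)]

end pt

/-- The contradiction for a fine subdivision. -/
lemma fine {X : Set Circ} {δ e η : ℝ} {m : ℕ} (he : 0 < e) {p0 : Circ}
    (hp0 : ∀ x ∈ X, e ≤ dist p0 x) (hmη : m * η = π) (hη0 : 0 < η) (hη1 : η < π)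
    (hηe : δ + η < 2 * e) (hηδ : 3 * δ + 3 * η < 2 * π) (f : Circ → Circ)
    (hfX : ∀ p, f p ∈ X) (hfd : ∀ p q : Circ, |dist (f p) (f q) - dist p q| ≤ δ) : False := by
  obtain ⟨T, hcmp, hle⟩ := exists_coord he hp0
  have big : ∀ p q : Circ, π - η ≤ dist p q → π - η - δ ≤ |T (f p) - T (f q)| := by
    intro p q hpq
    have h1 := abs_le.1 (hfd p q)
    have h2 := hle _ (hfX p) _ (hfX q)
    linarith
  have small : ∀ p q : Circ, dist p q = η → |T (f p) - T (f q)| ≤ δ + η := by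
    intro p q hpq
    have h1 := abs_le.1 (hfd p q)
    rw [hpq] at h1
    rw [← hcmp _ (hfX _) _ (hfX _) (by linarith)]
    linarith
  have := sign_change m (fun i => T (f (pt η i))) (π - η - δ) (δ + η) (by linarith)
    (fun i => by simp only [pt_period hmη])
    (fun i => small _ _ (pt_d1 hη0 hη1 i))
    (fun i => big _ _ (by rw [pt_d2 hmη]; linarith))
    (fun i => big _ _ (by rw [pt_d3 hmη hη0 hη1]))
  linarith

lemma exists_mesh {δ e : ℝ} (hδe : δ < 2 * e) (hδ : 3 * δ < 2 * π) :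
    ∃ (m : ℕ) (η : ℝ), m * η = π ∧ 0 < η ∧ η < π ∧ δ + η < 2 * e ∧ 3 * δ + 3 * η < 2 * π := by
  have hπ : (0 : ℝ) < π := Real.pi_pos
  obtain ⟨m, hm⟩ := exists_nat_gt (max 1 (max (π / (2 * e - δ)) (3 * π / (2 * π - 3 * δ))))
  have hm1 : (1 : ℝ) < m := lt_of_le_of_lt (le_max_left _ _) hm
  have hm2 : π / (2 * e - δ) < m :=
    lt_of_le_of_lt ((le_max_left _ _).trans (le_max_right _ _)) hm
  have hm3 : 3 * π / (2 * π - 3 * δ) < m :=
    lt_of_le_of_lt ((le_max_right _ _).trans (le_max_right _ _)) hm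
  have hm0 : (0 : ℝ) < m := by linarith
  have h0 : 0 < 2 * e - δ := by linarith
  have h1 : 0 < 2 * π - 3 * δ := by linarith
  rw [div_lt_iff₀ h0] at hm2
  rw [div_lt_iff₀ h1] at hm3
  refine ⟨m, π / m, by field_simp, by positivity, ?_, ?_, ?_⟩
  · rw [div_lt_iff₀ hm0]
    nlinarith
  · have : π / m < 2 * e - δ := by
      rw [div_lt_iff₀ hm0]
      linarith
    linarith
  · have : 3 * (π / m) < 2 * π - 3 * δ := by
      rw [← mul_div_assoc, div_lt_iff₀ hm0]
      linarith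
    linarith

lemma exists_gap {X : Set Circ} {r : ℝ} (h : r < dH X) :
    ∃ (p0 : Circ) (e : ℝ), r < e ∧ ∀ x ∈ X, e ≤ dist p0 x := by
  unfold dH at h
  obtain ⟨p0, hp0⟩ := exists_lt_of_lt_ciSup h
  exact ⟨p0, Metric.infDist p0 X, hp0, fun x hx => Metric.infDist_le_dist_of_mem hx⟩

/-- The lower bound for a correspondence. -/
lemma lower {X : Set Circ} {R : Set (Circ × Circ)} {δ : ℝ} (hR : IsCorrespondence X R)
    (hd : DistortionLE R δ) : 2 * min (dH X) (π / 3) ≤ δ := by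
  by_contra hcon
  push Not at hcon
  have hδ0 : 0 ≤ δ := nonneg_of_mem R hR hd
  have hδ1 : 3 * δ < 2 * π := by
    have := min_le_right (dH X) (π / 3)
    linarith
  have hδ2 : δ / 2 < dH X := by
    have := min_le_left (dH X) (π / 3)
    linarith
  obtain ⟨p0, e, he, hp0⟩ := exists_gap hδ2
  obtain ⟨m, η, h1, h2, h3, h4, h5⟩ := exists_mesh (e := e) (by linarith) hδ1
  have hf : ∀ p : Circ, ∃ x : Circ, (x, p) ∈ R := hR.2.2
  choose f hf using hf
  have hfX : ∀ p, f p ∈ X := fun p => hR.1 _ (hf p)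
  have hfd : ∀ p q : Circ, |dist (f p) (f q) - dist p q| ≤ δ := by
    intro p q
    have := hd _ (hf p) _ (hf q)
    exact this
  exact fine (X := X) (by linarith) hp0 h1 h2 h3 h4 h5 f hfX hfd

/-- `d_GH ≥ min (d_H, π / 3)`. -/
lemma min_le_dGH {X : Set Circ} (hX : X.Nonempty) : min (dH X) (π / 3) ≤ dGH X := by
  unfold dGH
  have : 2 * min (dH X) (π / 3) ≤
      sInf {δ : ℝ | ∃ R, IsCorrespondence X R ∧ DistortionLE R δ} :=
    le_csInf ⟨π, full_mem hX⟩ fun δ ⟨R, hR, hd⟩ => lower hR hd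
  linarith

/-! ### Arcs -/

/-- The closed arc of length `2π - 2ε`. -/
def arc (ε : ℝ) : Set Circ := (fun t : ℝ => (t : Circ)) '' Icc ε (2 * π - ε)

lemma arc_nonempty {ε : ℝ} (h : ε ≤ π) : (arc ε).Nonempty :=
  ⟨_, ⟨ε, ⟨le_rfl, by linarith⟩, rfl⟩⟩

lemma dH_arc {ε : ℝ} (h0 : 0 ≤ ε) (h : ε ≤ π) : dH (arc ε) = ε := by
  have hπ : (0 : ℝ) < π := Real.pi_pos
  apply le_antisymm
  · refine ciSup_le fun p => ?_
    obtain ⟨t, ⟨ht0, ht1⟩, rfl⟩ := exists_rep p
    rcases lt_or_ge t ε with h1 | h1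
    · have hm : ((ε : ℝ) : Circ) ∈ arc ε := ⟨ε, ⟨le_rfl, by linarith⟩, rfl⟩
      refine (Metric.infDist_le_dist_of_mem hm).trans ?_
      rw [dist_coe_of_le (by rw [abs_of_neg (by linarith)]; linarith), abs_of_neg (by linarith)]
      linarith
    · rcases lt_or_ge (2 * π - ε) t with h2 | h2
      · have hm : ((2 * π - ε : ℝ) : Circ) ∈ arc ε := ⟨2 * π - ε, ⟨by linarith, le_rfl⟩, rfl⟩
        refine (Metric.infDist_le_dist_of_mem hm).trans ?_
        rw [dist_coe_of_le (by rw [abs_of_pos (by linarith)]; linarith),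
          abs_of_pos (by linarith)]
        linarith
      · have hm : (t : Circ) ∈ arc ε := ⟨t, ⟨h1, h2⟩, rfl⟩
        rw [Metric.infDist_zero_of_mem hm]
        exact h0
  · refine le_trans ?_ (infDist_le_dH (arc ε) ((0 : ℝ) : Circ))
    rw [Metric.le_infDist (arc_nonempty h)]
    rintro _ ⟨t, ⟨ht0, ht1⟩, rfl⟩
    rw [dist_coe_eq (by rw [zero_sub, abs_neg, abs_of_nonneg (by linarith)]; linarith), zero_sub,
      abs_neg, abs_of_nonneg (by linarith)]
    exact le_min (by linarith) (by linarith)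

/-- The relation between the coordinates of the arc and of the circle. -/
def Rel (Y a b : ℝ) : Prop :=
  (0 ≤ b ∧ b ≤ 2 * π ∧ a = 2 * π / 3 + b / 3) ∨
  (0 ≤ b ∧ b ≤ Y ∧ a = 2 * π / 3 - b) ∨
  (2 * π - Y ≤ b ∧ b ≤ 2 * π ∧ a = 4 * π / 3 + (2 * π - b))

lemma dd_cases (x : ℝ) :
    (0 ≤ x ∧ x ≤ π ∧ min |x| (2 * π - |x|) = x) ∨ (π ≤ x ∧ min |x| (2 * π - |x|) = 2 * π - x) ∨
    (x ≤ 0 ∧ -π ≤ x ∧ min |x| (2 * π - |x|) = -x) ∨
    (x ≤ -π ∧ min |x| (2 * π - |x|) = 2 * π + x) := by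
  have hπ : (0 : ℝ) < π := Real.pi_pos
  rcases le_total 0 x with h | h
  · rw [abs_of_nonneg h]
    rcases le_total x π with h' | h'
    · exact Or.inl ⟨h, h', min_eq_left (by linarith)⟩
    · exact Or.inr (Or.inl ⟨h', min_eq_right (by linarith)⟩)
  · rw [abs_of_nonpos h]
    rcases le_total (-x) π with h' | h'
    · exact Or.inr (Or.inr (Or.inl ⟨h, by linarith, min_eq_left (by linarith)⟩))
    · exact Or.inr (Or.inr (Or.inr ⟨by linarith, by rw [min_eq_right (by linarith)]; ring⟩))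

lemma rel_key {Y a b a' b' : ℝ} (hY : Y ≤ π / 3) (h : Rel Y a b) (h' : Rel Y a' b') :
    |min |a - a'| (2 * π - |a - a'|) - min |b - b'| (2 * π - |b - b'|)| ≤ 2 * π / 3 := by
  have hπ : (0 : ℝ) < π := Real.pi_pos
  rcases dd_cases (a - a') with ⟨f1, f2, f3⟩ | ⟨f1, f3⟩ | ⟨f1, f2, f3⟩ | ⟨f1, f3⟩ <;>
  rcases dd_cases (b - b') with ⟨g1, g2, g3⟩ | ⟨g1, g3⟩ | ⟨g1, g2, g3⟩ | ⟨g1, g3⟩ <;>
  rw [f3, g3, abs_le] <;>
  rcases h with ⟨h1, h2, h3⟩ | ⟨h1, h2, h3⟩ | ⟨h1, h2, h3⟩ <;>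
  rcases h' with ⟨h1', h2', h3'⟩ | ⟨h1', h2', h3'⟩ | ⟨h1', h2', h3'⟩ <;>
  constructor <;> linarith

lemma rel_range {Y a b : ℝ} (hY : Y ≤ π / 3) (hY0 : 0 ≤ Y) (h : Rel Y a b) :
    2 * π / 3 - Y ≤ a ∧ a ≤ 4 * π / 3 + Y ∧ 0 ≤ b ∧ b ≤ 2 * π := by
  have hπ : (0 : ℝ) < π := Real.pi_pos
  rcases h with ⟨h1, h2, h3⟩ | ⟨h1, h2, h3⟩ | ⟨h1, h2, h3⟩ <;>
  refine ⟨?_, ?_, ?_, ?_⟩ <;> linarith

lemma dGH_arc {ε : ℝ} (h0 : π / 3 ≤ ε) (h1 : ε ≤ 2 * π / 3) : dGH (arc ε) ≤ π / 3 := by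
  have hπ : (0 : ℝ) < π := Real.pi_pos
  set Y : ℝ := 2 * π / 3 - ε with hY
  have hY1 : Y ≤ π / 3 := by linarith
  have hY0 : 0 ≤ Y := by linarith
  have h := dGH_le (X := arc ε) (δ := 2 * π / 3)
    {r | ∃ a b : ℝ, Rel Y a b ∧ r = ((a : Circ), (b : Circ))} ⟨?_, ?_, ?_⟩ ?_
  · linarith
  · rintro _ ⟨a, b, hab, rfl⟩
    obtain ⟨h2, h3, -, -⟩ := rel_range hY1 hY0 hab
    exact ⟨a, ⟨by linarith, by linarith⟩, rfl⟩
  · rintro _ ⟨t, ⟨ht0, ht1⟩, rfl⟩
    rcases lt_or_ge t (2 * π / 3) with h2 | h2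
    · exact ⟨((2 * π / 3 - t : ℝ) : Circ), t, 2 * π / 3 - t,
        Or.inr (Or.inl ⟨by linarith, by linarith, by ring⟩), rfl⟩
    · rcases lt_or_ge (4 * π / 3) t with h3 | h3
      · exact ⟨((2 * π - (t - 4 * π / 3) : ℝ) : Circ), t, 2 * π - (t - 4 * π / 3),
          Or.inr (Or.inr ⟨by linarith, by linarith, by ring⟩), rfl⟩
      · exact ⟨((3 * (t - 2 * π / 3) : ℝ) : Circ), t, 3 * (t - 2 * π / 3),
          Or.inl ⟨by linarith, by linarith, by ring⟩, rfl⟩
  · intro p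
    obtain ⟨b, ⟨hb0, hb1⟩, rfl⟩ := exists_rep p
    exact ⟨((2 * π / 3 + b / 3 : ℝ) : Circ), 2 * π / 3 + b / 3, b,
      Or.inl ⟨hb0, hb1.le, rfl⟩, rfl⟩
  · rintro _ ⟨a, b, hab, rfl⟩ _ ⟨a', b', hab', rfl⟩
    obtain ⟨h2, h3, h4, h5⟩ := rel_range hY1 hY0 hab
    obtain ⟨h2', h3', h4', h5'⟩ := rel_range hY1 hY0 hab'
    have e1 : |a - a'| ≤ 2 * π := by rw [abs_le]; constructor <;> linarith
    have e2 : |b - b'| ≤ 2 * π := by rw [abs_le]; constructor <;> linarith
    simp only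
    rw [dist_coe_eq e1, dist_coe_eq e2]
    exact rel_key hY1 hab hab'

end Pool.Agent.R736.CircleGH
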